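import Mathlib
import Pool.Agent.H26.MaxMono

namespace Pool.Agent.Results.MP_74c05d_an.MaxMonotone

theorem result (n : ℕ) (hn : 2 ≤ n) :
    ∃ C : Set (EuclideanSpace ℝ (Fin n)), C.Nonempty ∧ (∃ D, Convex ℝ D ∧ D ⊆ C ∧ C ⊆ closure D) ∧ ¬ Convex ℝ C ∧
      ∀ A : EuclideanSpace ℝ (Fin n) → Set (EuclideanSpace ℝ (Fin n)),
        (∀ x y u v, u ∈ A x → v ∈ A y → 0 ≤ inner ℝ (u - v) (x - y)) →
        (∀ B : EuclideanSpace ℝ (Fin n) → Set (EuclideanSpace ℝ (Fin n)),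
          (∀ x y u v, u ∈ B x → v ∈ B y → 0 ≤ inner ℝ (u - v) (x - y)) →
          (∀ x, A x ⊆ B x) → B = A) →
        {x | (A x).Nonempty} ≠ C ∧ (⋃ x, A x) ≠ C := by
  obtain ⟨C, h1, h2, h3, γ, hγ, hC⟩ := Pool.Agent.H26.MaxMono.exists_nearly n hn
  refine ⟨C, h1, h2, h3, fun A hA hmax => ?_⟩
  have := Pool.Agent.H26.MaxMono.not_proj C γ hγ hC (fun x u => u ∈ A x)
    (Pool.Agent.H26.MaxMono.closed_graph_max A hA hmax)
  refine ⟨this.1, ?_⟩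
  convert this.2 using 1
  ext u; simp

end Pool.Agent.Results.MP_74c05d_an.MaxMonotone
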