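import Mathlib
import Pool.Agent.H26.MaxMono

namespace Pool.Agent.Results.MP_74c05d_an.Subdiff

theorem result (n : ℕ) (hn : 2 ≤ n) :
    ∃ C : Set (EuclideanSpace ℝ (Fin n)), C.Nonempty ∧ (∃ D, Convex ℝ D ∧ D ⊆ C ∧ C ⊆ closure D) ∧ ¬ Convex ℝ C ∧
      ∀ f : EuclideanSpace ℝ (Fin n) → EReal, (∀ x, f x ≠ ⊥) → (∃ x, f x ≠ ⊤) →
        LowerSemicontinuous f →
        Convex ℝ {p : EuclideanSpace ℝ (Fin n) × ℝ | f p.1 ≤ (p.2 : EReal)} →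
        {x | ∃ u, ∀ y, f x + ((inner ℝ u (y - x) : ℝ) : EReal) ≤ f y} ≠ C ∧
        {u | ∃ x, ∀ y, f x + ((inner ℝ u (y - x) : ℝ) : EReal) ≤ f y} ≠ C := by
  obtain ⟨C, h1, h2, h3, γ, hγ, hC⟩ := Pool.Agent.H26.MaxMono.exists_nearly n hn
  refine ⟨C, h1, h2, h3, fun f _ _ hf _ => ?_⟩
  exact Pool.Agent.H26.MaxMono.not_proj C γ hγ hC
    (fun x u => ∀ y, f x + ((inner ℝ u (y - x) : ℝ) : EReal) ≤ f y)
    (Pool.Agent.H26.MaxMono.closed_graph_sub f hf)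

end Pool.Agent.Results.MP_74c05d_an.Subdiff
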